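import Pool.Agent.Lib.MP_e6fef2_lc.Chain

/-!
# CLO: closure points of uncountable cofinality
-/

universe u

open Cardinal

namespace Pool.Agent.Lib.MP_e6fef2_lc.H68

open Pool.Agent.Lib.MP_e6fef2_lc

theorem clo (hidx : IdxStatement.{u}) : CloStatement.{u} := by
  classical
  obtain ⟨_, h2, hctb, hbW, _⟩ := hidx
  intro κ I _ _ hI h i
  obtain ⟨hbd, _, _, hWκ, _, _, _⟩ := h2 κ I hI
  have hinf : ∀ x : I, (Set.Iic x).Nonempty := fun x => ⟨x, le_rfl⟩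
  have hIic : ∀ x : I, #(Set.Iic x) < κ := by
    intro x
    have h1 : Set.Iic x = insert x (Set.Iio x) := by
      ext y; simp [le_iff_eq_or_lt]
    rw [h1]
    refine lt_of_le_of_lt Cardinal.mk_insert_le ?_
    exact Cardinal.add_lt_of_lt hI.unc.le (hI.seg x) (lt_of_lt_of_le Cardinal.one_lt_aleph0 hI.unc.le)
  -- a bound for fewer than κ many
  have hstep : ∀ (ξ : W.{u}) (g : ∀ η : W.{u}, η < ξ → I),
      ∃ y : I, i < y ∧ ∀ (η : W.{u}) (hη : η < ξ), g η hη < y ∧ ∀ j ≤ g η hη, h j < y := by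
    intro ξ g
    have hc : (Set.Iio ξ).Countable := hctb ξ
    let Z : Set I := {i} ∪ ⋃ p : Set.Iio ξ, ({g p.1 p.2} ∪ h '' Set.Iic (g p.1 p.2))
    have hZ : #Z < κ := by
      refine lt_of_le_of_lt (Cardinal.mk_union_le _ _) ?_
      refine Cardinal.add_lt_of_lt hI.unc.le ?_ ?_
      · rw [Cardinal.mk_singleton]
        exact lt_trans Cardinal.one_lt_aleph0 hI.unc
      · refine Cardinal.card_iUnion_lt_iff_forall_of_isRegular hI.reg ?_ |>.2 ?_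
        · have : #(Set.Iio ξ) ≤ ℵ₀ := by
            rw [Cardinal.mk_le_aleph0_iff]; exact hc.to_subtype
          exact lt_of_le_of_lt this hI.unc
        · intro p
          refine lt_of_le_of_lt (Cardinal.mk_union_le _ _) ?_
          refine Cardinal.add_lt_of_lt hI.unc.le ?_ ?_
          · rw [Cardinal.mk_singleton]
            exact lt_trans Cardinal.one_lt_aleph0 hI.unc
          · exact lt_of_le_of_lt Cardinal.mk_image_le (hIic _)
    obtain ⟨y, hy⟩ := hbd Z hZ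
    refine ⟨y, hy i (Or.inl rfl), fun η hη => ⟨?_, fun j hj => ?_⟩⟩
    · exact hy _ (Or.inr (Set.mem_iUnion.2 ⟨⟨η, hη⟩, Or.inl rfl⟩))
    · exact hy _ (Or.inr (Set.mem_iUnion.2 ⟨⟨η, hη⟩, Or.inr ⟨j, hj, rfl⟩⟩))
  choose st hst1 hst2 using hstep
  let x : W.{u} → I := WellFounded.fix (wellFounded_lt (α := W.{u})) fun ξ g => st ξ g
  have hx : ∀ ξ, x ξ = st ξ fun η _ => x η := fun ξ => WellFounded.fix_eq _ _ _
  have hx1 : ∀ ξ, i < x ξ := fun ξ => by rw [hx]; exact hst1 _ _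
  have hx2 : ∀ η ξ, η < ξ → x η < x ξ := fun η ξ hη => by
    rw [hx ξ]; exact (hst2 ξ (fun η _ => x η) η hη).1
  have hx3 : ∀ η ξ, η < ξ → ∀ j ≤ x η, h j < x ξ := fun η ξ hη j hj => by
    rw [hx ξ]; exact (hst2 ξ (fun η _ => x η) η hη).2 j hj
  have hrange : #(Set.range x) < κ := lt_of_le_of_lt Cardinal.mk_range_le hWκ
  obtain ⟨y, hy⟩ := hbd _ hrange
  have hne : {y : I | ∀ ξ, x ξ < y}.Nonempty := ⟨y, fun ξ => hy _ ⟨ξ, rfl⟩⟩
  let δ := (wellFounded_lt (α := I)).min {y : I | ∀ ξ, x ξ < y} hne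
  have hδ : ∀ ξ, x ξ < δ := (wellFounded_lt (α := I)).min_mem _ hne
  have hmin : ∀ j < δ, ∃ ξ, j ≤ x ξ := by
    intro j hj
    by_contra hcon
    push Not at hcon
    exact (wellFounded_lt (α := I)).not_lt_min _ (show j ∈ {y : I | ∀ ξ, x ξ < y} from hcon) hj
  have hex : ∀ η : W.{u}, ∃ ξ, η < ξ := fun η => by
    obtain ⟨ξ, hξ⟩ := hbW {η} (Set.countable_singleton η)
    exact ⟨ξ, hξ η rfl⟩
  obtain ⟨ξ0, _⟩ := hbW ∅ Set.countable_empty
  have : Nonempty W.{u} := ⟨ξ0⟩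
  refine ⟨δ, (hx1 ξ0).trans (hδ ξ0), ?_, ?_⟩
  · intro s hs hsd
    choose! w hw using fun j (hj : j ∈ s) => hmin j (hsd j hj)
    obtain ⟨ζ, hζ⟩ := hbW (w '' s) (hs.image w)
    exact ⟨x ζ, hδ ζ, fun j hj => (hw j hj).trans_lt (hx2 _ _ (hζ _ ⟨j, hj, rfl⟩))⟩
  · intro j hj
    obtain ⟨ξ, hξ⟩ := hmin j hj
    obtain ⟨η, hη⟩ := hex ξ
    exact (hx3 ξ η hη j hξ).trans (hδ η)

end Pool.Agent.Lib.MP_e6fef2_lc.H68
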