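import Pool.Agent.Lib.MP_e6fef2_lc.Chain

/-!
# ITER: the iteration theorem
-/

universe u

open Cardinal

namespace Pool.Agent.Lib.MP_e6fef2_lc.H68

open Pool.Agent.Lib.MP_e6fef2_lc Pool.Agent.Lib.MP_100a6c_lc
open Pool.Agent.Lib.MP_c5d73d_lc.F (pr RoapiStatement)

/-- Typed `PFA(ω₁)` for the top of a chain all of whose elements are old. -/
theorem iter_tpf (hidx : IdxStatement.{u}) (halg : AlgStatement.{u}) (hfac : FacStatement.{u})
    (κ : Cardinal.{u}) (I : Type u) [LinearOrder I] [WellFoundedLT I] (hI : Idx κ I)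
    (bk : I → I × I) (hbk : ∀ p i, ∃ j, i < j ∧ bk j = p) (S : Type u) [Preorder S]
    (X : I → St I S) (hX : ∀ β, Ok κ bk β X)
    (hg : GoodCh κ (fun l => (X l).A) (fm (fun l => l) fun l => X l) (fun l => (X l).ι)
      fun l => (X l).M)
    (C : Type u) [CompleteBooleanAlgebra C] (e : ∀ i, (X i).A → C)
    (he : IsTop (fun l => (X l).A) (fm (fun l => l) fun l => X l) e) (hpe : ∀ i, PE (e i))
    (hold : ∀ c : C, ∃ i, ∃ a : (X i).A, c = e i a) : TPF C := by
  classical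
  obtain ⟨_, h2, _, hbW, _⟩ := hidx
  obtain ⟨hbd, _, _, hWκ, _, hWW, _⟩ := h2 κ I hI
  intro Q hQ D hD
  have hnomax : ∀ i : I, ∃ j, i < j := fun i => by
    obtain ⟨j, hj⟩ := hbd {i} (by rw [Cardinal.mk_singleton]; exact lt_trans one_lt_aleph0 hI.unc)
    exact ⟨j, hj i rfl⟩
  have hbd2 : ∀ g : W.{u} × W.{u} → I, ∃ i, ∀ p, g p < i := fun g => by
    obtain ⟨i, hi⟩ := hbd (Set.range g) (lt_of_le_of_lt Cardinal.mk_range_le (by
      simp only [Cardinal.mk_prod, Cardinal.lift_id]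
      exact Cardinal.mul_lt_of_lt hI.unc.le hWκ hWκ))
    exact ⟨i, fun p => hi _ ⟨p, rfl⟩⟩
  have hlift : ∀ i j, i ≤ j → ∀ a : (X i).A, e i a = e j (fm (fun l => l) (fun l => X l) i j a) :=
    fun i j hij a => (he.comp i j hij a).symm
  -- the stage of `Q` and `D`
  have hstage : ∀ g : W.{u} → W.{u} → C, ∃ i, ∀ j, i ≤ j → ∃ h : W.{u} → W.{u} → (X j).A,
      ∀ x y, g x y = e j (h x y) := by
    intro g
    choose st a ha using fun p : W.{u} × W.{u} => hold (g p.1 p.2)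
    obtain ⟨i, hi⟩ := hbd2 st
    refine ⟨i, fun j hij => ⟨fun x y => fm (fun l => l) (fun l => X l) (st (x, y)) j (a (x, y)),
      fun x y => ?_⟩⟩
    rw [← hlift _ _ ((hi (x, y)).le.trans hij)]
    exact ha (x, y)
  obtain ⟨j, hj⟩ := hstage Q.le
  obtain ⟨q, hq⟩ := hj j le_rfl
  obtain ⟨jD, hjD⟩ := hstage D
  -- the code of `q`
  have hsurj : ∃ g : I → (W.{u} → W.{u} → (X j).A), Function.Surjective g := by
    have h1 : #(W.{u} → W.{u} → (X j).A) ≤ #I := by rw [hI.card]; exact hWW _ (hg.card j)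
    obtain ⟨g⟩ := h1
    have : Nonempty (W.{u} → W.{u} → (X j).A) := ⟨q⟩
    exact ⟨Function.invFun g, Function.invFun_surjective g.injective⟩
  obtain ⟨ν, hν⟩ : ∃ ν, enu I (X j).A ν = q := by
    obtain ⟨ν, hν⟩ := hsurj.choose_spec q
    refine ⟨ν, ?_⟩
    rw [enu, dif_pos hsurj]
    exact hν
  obtain ⟨i, hi, hbki⟩ := hbk (j, ν) (max j jD)
  have hji : j < i := (le_max_left _ _).trans_lt hi
  have hDi : jD < i := (le_max_right _ _).trans_lt hi
  obtain ⟨d, hd⟩ := hjD i hDi.le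
  -- the next stage
  obtain ⟨β, hβ⟩ : ∃ β, i ⋖ β := by
    let s : Set I := {β | i < β}
    have hs : s.Nonempty := hnomax i
    refine ⟨(wellFounded_lt (α := I)).min s hs, (wellFounded_lt (α := I)).min_mem s hs, ?_⟩
    intro k hik hk
    exact (wellFounded_lt (α := I)).not_lt_min s (show k ∈ s from hik) hk
  -- facts on the embeddings
  obtain ⟨htop, _, hinf, _, hle, _⟩ := halg _ _ (e i) (he.ce i)
  have hinj := (he.ce i).inj
  obtain ⟨_, _, _, _, _, hsup, _⟩ := halg _ _ (e i) (he.ce i)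
  -- the name over `A i`
  have hQi : ∀ x y, Q.le x y = e i (fm (fun l => l) (fun l => X l) j i (q x y)) := fun x y => by
    rw [hq, hlift j i hji.le]
  let Qi : BPre (X i).A W.{u} :=
    { le := fun x y => fm (fun l => l) (fun l => X l) j i (q x y)
      refl := fun x => hinj (by rw [← hQi, Q.refl, htop])
      trans := fun x y z => by
        rw [← hle, hinf, ← hQi, ← hQi, ← hQi]; exact Q.trans x y z }
  have h1 : e i ⊤ = ⊤ := htop
  have h2' : ∀ a b c, a ⊓ b ≤ c → e i a ⊓ e i b ≤ e i c := fun a b c h => by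
    rw [← hinf]; exact (hle _ _).2 h
  have hQeq : Q = Qi.map (e i) h1 h2' := by
    have : Q.le = (Qi.map (e i) h1 h2').le := by
      funext x y; exact hQi x y
    cases Q
    simp only [BPre.map] at this ⊢
    congr
  have : Nonempty W.{u} := by
    obtain ⟨ξ, _⟩ := hbW ∅ Set.countable_empty
    exact ⟨ξ⟩
  have hPEi : PE (twE Qi) := by
    refine hfac _ _ (e i) (he.ce i) (hpe i) W.{u} Qi h1 h2' ?_
    rw [← hQeq]; exact hQ
  obtain ⟨G, hG⟩ := (hX β).succ ⟨i, hβ.lt⟩ hβ Qi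
    ⟨⟨j, hji.trans hβ.lt⟩, hji.le, congrArg Prod.fst hbki, fun x y => by
      have h3 : (bk i).2 = ν := congrArg Prod.snd hbki
      change _ = fm (fun l => l) (fun l => X l) j i (enu I (X j).A (bk i).2 x y)
      rw [h3, hν]⟩ hPEi
  obtain ⟨htopβ, _, hinfβ, _, hleβ, hsupβ, _⟩ := halg _ _ (e β) (he.ce β)
  have hcompβ : ∀ a : (X i).A, e β ((X β).mp i ⟨(X i).A, a⟩) = e i a :=
    fun a => he.comp i β hβ.le a
  refine ⟨fun x => e β (G x), ?_, ?_, ?_, ?_⟩
  · rw [← hsupβ, hG.ne, htopβ]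
  · intro x y
    have := (hleβ _ _).2 (hG.up x y)
    rw [hinfβ] at this
    have h3 : e β ((X β).mp i ⟨(X i).A, Qi.le x y⟩) = Q.le x y := by
      rw [hcompβ]; exact (hQi x y).symm
    rw [← h3]
    exact this
  · intro x y
    have := (hleβ _ _).2 (hG.dir x y)
    rw [hinfβ, hsupβ] at this
    refine this.trans (iSup_mono fun z => ?_)
    rw [hinfβ, hinfβ]
    have h3 : ∀ w, e β ((X β).mp i ⟨(X i).A, Qi.le z w⟩) = Q.le z w := fun w => by
      rw [hcompβ]; exact (hQi z w).symm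
    rw [← h3, ← h3]
  · intro ξ
    have h4 : ∀ x, ⨆ y, d ξ y ⊓ Qi.le y x = ⊤ := fun x => by
      apply hinj
      rw [hsup, htop, ← hD ξ x]
      refine iSup_congr fun y => ?_
      rw [hinf, ← hd]
      exact congrArg _ (hQi y x).symm
    have h5 := congrArg (e β) (hG.gn (d ξ) h4)
    rw [hsupβ, htopβ] at h5
    rw [← h5]
    refine iSup_congr fun y => ?_
    rw [hinfβ]
    have h6 : e β ((X β).mp i ⟨(X i).A, d ξ y⟩) = D ξ y := by
      rw [hcompβ]; exact (hd ξ y).symm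
    rw [← h6]

theorem iter (hidx : IdxStatement.{u}) (hrec : RecStatement.{u, u + 1})
    (hstep : StepStatement.{u}) (hokg : OkgStatement.{u}) (hlimc : LimcStatement.{u})
    (hpel : PelStatement.{u}) (hkcc : KccStatement.{u}) (halg : AlgStatement.{u})
    (halg2 : Alg2Statement.{u}) (hpec : PecStatement.{u}) (hfac : FacStatement.{u})
    (hdmr : DmrStatement.{u}) : IterStatement.{u} := by
  classical
  intro κ I _ _ hI S _ _ hSG hKC hSκ
  obtain ⟨_, h2, _⟩ := id hidx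
  obtain ⟨hbd, _, _, _, _, _, bk, hbk⟩ := h2 κ I hI
  have : Inhabited (St I S) := ⟨⟨H1.RO S, fun x => x, fun _ _ => ⊥, ∅⟩⟩
  obtain ⟨X, hX⟩ : ∃ X : I → St I S, ∀ β, Ok κ bk β X := by
    refine hrec I (St I S) (Ok κ bk) ?_ ?_
    · intro β X X' h hok
      have h1 : (fun i : Set.Iio β => X i.1) = fun i : Set.Iio β => X' i.1 := by
        funext i; exact h i.1 (le_of_lt i.2)
      have h2 : X β = X' β := h β le_rfl
      rw [Ok, ← h1, ← h2]
      exact hok
    · intro β X h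
      exact hstep κ I hI bk S hSG hKC hSκ β X h
  have hg : GoodCh κ (fun l => (X l).A) (fm (fun l => l) fun l => X l) (fun l => (X l).ι)
      fun l => (X l).M :=
    hokg κ I bk S X I (fun l => l) (fun _ _ h => h) (fun l i _ => ⟨i, rfl⟩) hX
  have hne : Nonempty I := by
    rw [← Cardinal.mk_ne_zero_iff, hI.card]
    exact (lt_of_le_of_lt (zero_le) hI.unc).ne'
  obtain ⟨_, htop, htp, hdp⟩ := hlimc I (fun l => (X l).A) (fm (fun l => l) fun l => X l) hg.ch hg.tp
  set C := H1.RO (Thr (fun l => (X l).A) (fm (fun l => l) fun l => X l)) with hC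
  let e : ∀ i, (X i).A → C := fun i a => thE i a
  have htop' : IsTop (fun l => (X l).A) (fm (fun l => l) fun l => X l) e := htop
  have hpe : ∀ i, PE (e i) := hpel I _ _ C e hg.ch htop' htp hdp hg.pe
  obtain ⟨_, hold⟩ := hkcc κ I hI S hKC _ _ _ _ hg C e htop' hdp
  obtain ⟨i0⟩ := hne
  let ι : H1.RO S → C := fun x => e i0 ((X i0).ι x)
  have hι : ∀ i x, e i ((X i).ι x) = ι x := by
    intro i x
    rcases le_total i i0 with h | h
    · have h1 := htop'.comp i i0 h ((X i).ι x)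
      rw [hg.ιcomp i i0 h x] at h1
      exact h1.symm
    · have h1 := htop'.comp i0 i h ((X i0).ι x)
      rw [hg.ιcomp i0 i h x] at h1
      exact h1
  have hιce : IsCE ι := (halg2 _ _ _ _ _ (hg.ιce i0) (htop'.ce i0)).1
  refine ⟨C, inferInstance, ι, hιce, ?_, ?_, ?_⟩
  · exact (hpec _ _ _ _ _ (hg.ιce i0) (htop'.ce i0)).1 (hg.ιpe i0) (hpe i0)
  · exact iter_tpf hidx halg hfac κ I hI bk hbk S X hX hg C e htop' hpe hold
  · refine ⟨fun i => Set.range (e i), fun i => e i '' (X i).M, ?_, ?_, ?_⟩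
    · rintro i j hij _ ⟨a, rfl⟩
      exact ⟨_, htop'.comp i j hij a⟩
    · intro b
      obtain ⟨i, a, rfl⟩ := hold b
      exact ⟨i, a, rfl⟩
    · intro i
      have hce := htop'.ce i
      obtain ⟨_, hbot, hinf, _, hle, _, _, _, _, _, _, hprj, _⟩ := halg _ _ (e i) hce
      refine ⟨⟨?_, ?_⟩, fun x => ⟨_, hι i x⟩, ?_, ?_, ?_⟩
      · rintro _ ⟨a, rfl⟩
        exact ⟨aᶜ, hce.compl a⟩
      · intro s hs
        refine ⟨sSup (e i ⁻¹' s), ?_⟩
        rw [hce.sSup]
        refine le_antisymm (iSup₂_le fun a ha => le_sSup ha) (sSup_le fun b hb => ?_)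
        obtain ⟨a, rfl⟩ := hs hb
        exact le_iSup₂_of_le a hb le_rfl
      · rintro _ ⟨a, _, rfl⟩
        exact ⟨a, rfl⟩
      · exact lt_of_le_of_lt Cardinal.mk_image_le (hg.Mcard i)
      · rintro _ ⟨a, rfl⟩ ha
        have ha' : a ≠ ⊥ := fun h => ha (by rw [h]; exact hbot)
        obtain ⟨s, m, hm, h0, h1, h3⟩ := (hdmr S).1 _ (X i).ι (X i).M (hg.ιce i) (hg.Mdm i) a ha'
        refine ⟨s, e i m, ⟨m, hm, rfl⟩, ?_, ?_, ?_⟩
        · rw [← hι i, ← hinf]
          intro h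
          exact h0 (hce.inj (h.trans hbot.symm))
        · rw [← hι i, ← hinf]
          exact (hle _ _).2 h1
        · have h4 : ι = fun x => e i ((X i).ι x) := by funext x; exact (hι i x).symm
          have h5 : prj ι (e i m) = prj (X i).ι m := by
            rw [h4, (halg2 _ _ _ _ _ (hg.ιce i) hce).2.1, hprj]
          rw [h5]
          exact h3

end Pool.Agent.Lib.MP_e6fef2_lc.H68
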