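import Pool.Agent.Lib.MP_e6fef2_lc.Chain

/-!
# SIZE: chain condition and size of an algebra with a small relatively dense set
-/

universe u

open Cardinal

namespace Pool.Agent.Lib.MP_e6fef2_lc.H68

open Pool.Agent.Lib.MP_e6fef2_lc Pool.Agent.Lib.MP_100a6c_lc
open Pool.Agent.Lib.MP_c5d73d_lc.F (pr RoapiStatement)

theorem size_kca (hroapi : RoapiStatement.{u}) (halg : AlgStatement.{u}) (hdmr : DmrStatement.{u})
    (κ : Cardinal.{u}) (I : Type u) [LinearOrder I] [WellFoundedLT I] (hI : Idx κ I)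
    (S : Type u) [Preorder S] (hS : KC I S) (A : Type u) [CompleteBooleanAlgebra A]
    (ι : H1.RO S → A) (M : Set A) (hι : IsCE ι) (hM : DM ι M) (hMκ : #M < κ) : KCA I A := by
  classical
  intro a ha
  obtain ⟨hd1, _, _⟩ := hdmr S
  choose s m hmM hne hle hpr using fun i => hd1 A ι M hι hM (a i) (ha i)
  obtain ⟨_, _, _, _, _, _, _, _, _, _, _, _, _, _, _, _, _, _, hcomp⟩ := halg (H1.RO S) A ι hι
  obtain ⟨_, _, _, hprne, _, hprmono, _⟩ := hroapi S
  -- pigeonhole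
  have hreg := hI.reg
  let g : I → M := fun i => ⟨m i, hmM i⟩
  obtain ⟨m0, hm0⟩ : ∃ m0 : M, κ ≤ #(g ⁻¹' {m0}) := by
    have := Cardinal.infinite_pigeonhole_card g κ (by rw [hI.card]) hI.unc.le (by
      rw [hreg.cof_ord]; exact hMκ)
    exact this
  have h1 : #I ≤ #(g ⁻¹' {m0}) := by rw [hI.card]; exact hm0
  obtain ⟨e⟩ := h1
  obtain ⟨i, j, hij, t, hti, htj⟩ := hS fun i => s (e i).1
  refine ⟨(e i).1, (e j).1, fun h => hij (e.injective (Subtype.ext h)), fun hbot => ?_⟩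
  have hmi : m (e i).1 = m0.1 := by
    have := (e i).2
    simp only [Set.mem_preimage, Set.mem_singleton_iff, g] at this
    exact congrArg Subtype.val this
  have hmj : m (e j).1 = m0.1 := by
    have := (e j).2
    simp only [Set.mem_preimage, Set.mem_singleton_iff, g] at this
    exact congrArg Subtype.val this
  have hmono : ∀ x y : H1.RO S, x ≤ y → ι x ≤ ι y := by
    obtain ⟨_, _, _, _, h5, _⟩ := halg (H1.RO S) A ι hι
    exact fun x y h => (h5 x y).2 h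
  have h2 : ι (pr t) ⊓ m0.1 ≤ a (e i).1 :=
    le_trans (le_inf (inf_le_left.trans (hmono _ _ (hprmono _ _ hti))) (hmi ▸ inf_le_right))
      (hle (e i).1)
  have h3 : ι (pr t) ⊓ m0.1 ≤ a (e j).1 :=
    le_trans (le_inf (inf_le_left.trans (hmono _ _ (hprmono _ _ htj))) (hmj ▸ inf_le_right))
      (hle (e j).1)
  have h4 : ι (pr t) ⊓ m0.1 = ⊥ := le_bot_iff.1 ((le_inf h2 h3).trans hbot.le)
  have h5 := (hcomp m0.1 (pr t)).1 h4
  have h6 : (pr t : H1.RO S) ≤ prj ι m0.1 := by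
    rw [← hmi]; exact (hprmono _ _ hti).trans (hpr _)
  rw [inf_eq_left.2 h6] at h5
  exact hprne t h5

theorem kca_card {κ : Cardinal.{u}} {I A : Type u} [CompleteBooleanAlgebra A] (hI : #I = κ)
    (hk : KCA I A) (Y : Set A) (h0 : ⊥ ∉ Y) (hd : Y.PairwiseDisjoint id) : #Y < κ := by
  by_contra hcon
  rw [not_lt, ← hI] at hcon
  obtain ⟨e⟩ := hcon
  obtain ⟨i, j, hij, h⟩ := hk (fun i => (e i).1) (fun i hi => h0 (hi ▸ (e i).2))
  refine h (disjoint_iff.1 (hd (e i).2 (e j).2 fun h' => hij (e.injective (Subtype.ext h'))))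

theorem max_anti {A : Type u} [CompleteBooleanAlgebra A] (E : Set A) (a : A)
    (hE : ∀ b ≤ a, b ≠ ⊥ → ∃ c ∈ E, c ≤ b ∧ c ≠ ⊥) :
    ∃ Y ⊆ E, ⊥ ∉ Y ∧ Y.PairwiseDisjoint id ∧ sSup Y = a := by
  classical
  obtain ⟨Y, hY⟩ := zorn_subset {Y : Set A | Y ⊆ {c | c ∈ E ∧ c ≤ a ∧ c ≠ ⊥} ∧
    Y.PairwiseDisjoint id} (by
      intro c hc hch
      refine ⟨⋃₀ c, ⟨Set.sUnion_subset fun Y hY => (hc hY).1, ?_⟩, fun s hs =>
        Set.subset_sUnion_of_mem hs⟩
      rw [Set.pairwiseDisjoint_sUnion hch.directedOn]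
      exact fun Y hY => (hc hY).2)
  have hY1 := hY.prop
  refine ⟨Y, fun c hc => (hY1.1 hc).1, fun h => (hY1.1 h).2.2 rfl, hY1.2, ?_⟩
  refine le_antisymm (sSup_le fun c hc => (hY1.1 hc).2.1) ?_
  by_contra hcon
  have h1 : a ⊓ (sSup Y)ᶜ ≠ ⊥ := fun h => hcon (by
    rwa [← disjoint_iff, disjoint_compl_right_iff] at h)
  obtain ⟨c, hcE, hcle, hc0⟩ := hE _ inf_le_left h1
  have h2 : c ∈ Y := by
    have h3 : insert c Y ∈ {Y : Set A | Y ⊆ {c | c ∈ E ∧ c ≤ a ∧ c ≠ ⊥} ∧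
        Y.PairwiseDisjoint id} := by
      refine ⟨Set.insert_subset ⟨hcE, hcle.trans inf_le_left, hc0⟩ hY1.1, ?_⟩
      refine hY1.2.insert fun d hd _ => ?_
      refine Disjoint.mono (hcle.trans inf_le_right) (le_sSup hd) ?_
      exact disjoint_compl_left
    exact hY.le_of_ge h3 (Set.subset_insert _ _) (Set.mem_insert _ _)
  have h3 : c ≤ ⊥ := by
    have := le_inf (le_sSup h2) (hcle.trans inf_le_right)
    rwa [inf_compl_self] at this
  exact hc0 (le_bot_iff.1 h3)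

theorem size (hidx : IdxStatement.{u}) (hroapi : RoapiStatement.{u}) (halg : AlgStatement.{u})
    (hdmr : DmrStatement.{u}) : SizeStatement.{u} := by
  classical
  intro κ I _ _ hI S _ hS hSκ A _ ι M hι hM hMκ
  have hk := size_kca hroapi halg hdmr κ I hI S hS A ι M hι hM hMκ
  refine ⟨hk, ?_⟩
  obtain ⟨_, h2, _⟩ := hidx
  obtain ⟨_, _, _, _, hset, _⟩ := h2 κ I hI
  have hX : #(S × M) ≤ κ := by
    rw [Cardinal.mk_prod, Cardinal.lift_id, Cardinal.lift_id]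
    exact Cardinal.mul_le_of_le hI.unc.le hSκ hMκ.le
  refine le_trans ?_ (hset (S × M) hX)
  have key : ∀ a : A, ∃ Z : {Z : Set (S × M) // #Z < κ},
      ⨆ p ∈ Z.1, (ι (pr p.1) ⊓ p.2.1) = a := by
    intro a
    obtain ⟨Y, hYE, hY0, hYd, hYa⟩ := max_anti (Set.range fun p : S × M => ι (pr p.1) ⊓ p.2.1) a
      (by
        intro b _ hb
        obtain ⟨s, m, hm, h0, hle⟩ := hM b hb
        exact ⟨_, ⟨(s, ⟨m, hm⟩), rfl⟩, hle, h0⟩)
    have hYκ := kca_card hI.card hk Y hY0 hYd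
    choose p hp using fun c : Y => hYE c.2
    refine ⟨⟨Set.range p, lt_of_le_of_lt Cardinal.mk_range_le hYκ⟩, ?_⟩
    rw [← hYa, sSup_eq_iSup', iSup_range]
    exact iSup_congr fun c => hp c
  choose Z hZ using key
  refine Cardinal.mk_le_of_injective (f := Z) fun a b hab => ?_
  rw [← hZ a, ← hZ b, hab]

end Pool.Agent.Lib.MP_e6fef2_lc.H68
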